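import Mathlib
import Pool.Agent.Q102.DistTable

/-!
# A median graph with a triametral triple without peripheral vertices (MP_2f8eff_co)

The graph is the 3 × 3 grid with one corner removed.  Numbering: the vertices
`0, …, 7` are the points `(0,0), (1,0), (2,0), (0,1), (1,1), (2,1), (0,2), (1,2)`, and
two points are adjacent when their `ℓ¹` distance is one.
-/

set_option autoImplicit false

open SimpleGraph

namespace Pool.Agent.Results.MP_2f8eff_co.GridMinusCorner

section Defs

variable {V : Type*} (G : SimpleGraph V)

/-- The interval between `u` and `v`: the vertices lying on a shortest `u`-`v` path. -/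
def interval (u v : V) : Set V := {x | G.dist u x + G.dist x v = G.dist u v}

/-- Median graphs: connected, and any three vertices have exactly one median. -/
def IsMedian : Prop :=
  G.Connected ∧ ∀ u v w, ∃! x, x ∈ interval G u v ∩ interval G u w ∩ interval G v w

/-- `d(a,b,c) = d(a,b) + d(b,c) + d(a,c)`. -/
noncomputable def triDist (a b c : V) : ℕ := G.dist a b + G.dist b c + G.dist a c

/-- The triple `a, b, c` is triametral: `d(a,b,c)` is the triameter. -/
def IsTriametral (a b c : V) : Prop := ∀ x y z, triDist G x y z ≤ triDist G a b c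

/-- `v` is peripheral: some vertex is at distance `diam G` from `v`. -/
def IsPeripheral (v : V) : Prop := ∃ u, ∀ x y, G.dist x y ≤ G.dist v u

end Defs

/-- First coordinate. -/
def cx : Fin 8 → ℤ := ![0, 1, 2, 0, 1, 2, 0, 1]

/-- Second coordinate. -/
def cy : Fin 8 → ℤ := ![0, 0, 0, 1, 1, 1, 2, 2]

/-- The `ℓ¹` distance. -/
def D (u v : Fin 8) : ℕ := (cx u - cx v).natAbs + (cy u - cy v).natAbs

/-- The 3 × 3 grid without a corner. -/
def gr : SimpleGraph (Fin 8) where
  Adj u v := D u v = 1
  symm := ⟨by decide⟩
  loopless := ⟨by decide⟩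

instance : DecidableRel gr.Adj := fun u v => inferInstanceAs (Decidable (D u v = 1))

theorem h0 : ∀ u, D u u = 0 := by decide

theorem hstep : ∀ u v, u ≠ v → ∃ w, gr.Adj u w ∧ D w v + 1 = D u v := by decide

theorem hadj : ∀ u w v, gr.Adj u w → D u v ≤ D w v + 1 := by decide

theorem dist_eq (u v : Fin 8) : gr.dist u v = D u v :=
  Pool.Agent.Q102.DistTable.dist_eq h0 hstep hadj u v

/-- There is a median graph with a triametral triple none of whose vertices is peripheral. -/
theorem result : ∃ G : SimpleGraph (Fin 8), IsMedian G ∧ ∃ a b c, IsTriametral G a b c ∧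
    ¬ IsPeripheral G a ∧ ¬ IsPeripheral G b ∧ ¬ IsPeripheral G c := by
  refine ⟨gr, ⟨Pool.Agent.Q102.DistTable.connected h0 hstep, ?_⟩, 0, 5, 7, ?_, ?_, ?_, ?_⟩
  · simp only [interval, dist_eq, ExistsUnique, Set.mem_inter_iff, Set.mem_ofPred_eq]
    decide
  · simp only [IsTriametral, triDist, dist_eq]
    decide
  · simp only [IsPeripheral, dist_eq]
    decide
  · simp only [IsPeripheral, dist_eq]
    decide
  · simp only [IsPeripheral, dist_eq]
    decide

end Pool.Agent.Results.MP_2f8eff_co.GridMinusCorner
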